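import Mathlib

namespace Pool.Agent.H.MP_4f7194_al

open Subgroup

section
variable {G S : Type*} [Group G] [Group S]

lemma inf_map (φ : G →* S) (hS : commutator S = ⊤) (A B : Subgroup G) [A.Normal] [B.Normal]
    (hA : A.map φ = ⊤) (hB : B.map φ = ⊤) : (A ⊓ B).map φ = ⊤ := by
  rw [eq_top_iff, ← hS, commutator_def, ← hA]
  conv_lhs => rw [hA]; congr; rw [← hA]; rfl; rw [← hB]
  rw [← map_commutator]
  exact map_mono (commutator_le_inf A B)

lemma map_top_of_not_le [IsSimpleGroup S] (φ : G →* S) (hφ : Function.Surjective φ)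
    (A : Subgroup G) [hA : A.Normal] (h : ¬ A ≤ φ.ker) : A.map φ = ⊤ := by
  rcases (hA.map φ hφ).eq_bot_or_eq_top with h1 | h1
  · exact absurd ((map_eq_bot_iff A).1 h1) h
  · exact h1

lemma step [IsSimpleGroup S] (hS : commutator S = ⊤) {ι : Type*} (r : ι → G)
    (hr : normalClosure (Set.range r) = ⊤) (M : Subgroup G) [M.Normal] (φ : G →* S)
    (hM : M.map φ = ⊤) (i : ι) :
    ∃ r' : ι → G, normalClosure (Set.range r') = ⊤ ∧ (∀ j, (r j)⁻¹ * r' j ∈ M) ∧
      ∀ j, j ≠ i → φ (r' j) = 1 := by
  classical
  have hφ : Function.Surjective φ := by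
    intro s
    have : s ∈ M.map φ := by rw [hM]; trivial
    obtain ⟨g, -, hg⟩ := this
    exact ⟨g, hg⟩
  have key : ∀ g : G, φ g ≠ 1 → ∀ s : S, ∃ u, u ∈ M ∧ u ∈ normalClosure ({g} : Set G) ∧ φ u = s := by
    intro g hg s
    have h1 : (normalClosure ({g} : Set G)).map φ = ⊤ := by
      apply map_top_of_not_le φ hφ
      intro h
      exact hg (h (subset_normalClosure (Set.mem_singleton g)))
    have h2 := inf_map φ hS M _ hM h1
    have : s ∈ (M ⊓ normalClosure ({g} : Set G)).map φ := by rw [h2]; trivial
    obtain ⟨u, hu, hu'⟩ := this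
    exact ⟨u, hu.1, hu.2, hu'⟩
  -- first stage
  have st1 : ∃ r1 : ι → G, normalClosure (Set.range r1) = ⊤ ∧ (∀ j, (r j)⁻¹ * r1 j ∈ M) ∧
      φ (r1 i) ≠ 1 := by
    by_cases hi : φ (r i) = 1
    · have hb : ∃ b, φ (r b) ≠ 1 := by
        by_contra hcon
        push Not at hcon
        have : normalClosure (Set.range r) ≤ φ.ker := by
          apply normalClosure_le_normal
          rintro _ ⟨b, rfl⟩
          exact hcon b
        rw [hr] at this
        obtain ⟨s, hs⟩ := exists_ne (1 : S)
        obtain ⟨g, rfl⟩ := hφ s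
        exact hs (this (mem_top g))
      obtain ⟨b, hb⟩ := hb
      have hbi : b ≠ i := by rintro rfl; exact hb hi
      obtain ⟨s, hs⟩ := exists_ne (1 : S)
      obtain ⟨u, huM, huN, hu⟩ := key (r b) hb s
      refine ⟨Function.update r i (r i * u), ?_, ?_, ?_⟩
      · rw [eq_top_iff, ← hr]
        apply normalClosure_le_normal
        rintro _ ⟨j, rfl⟩
        have hall : ∀ j, Function.update r i (r i * u) j ∈
            normalClosure (Set.range (Function.update r i (r i * u))) :=
          fun j => subset_normalClosure ⟨j, rfl⟩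
        by_cases hj : j = i
        · subst hj
          have h1 := hall j
          rw [Function.update_self] at h1
          have h2 := hall b
          rw [Function.update_of_ne hbi] at h2
          have h3 : u ∈ normalClosure (Set.range (Function.update r j (r j * u))) := by
            refine (normalClosure_le_normal ?_ : normalClosure ({r b} : Set G) ≤ _) huN
            rintro _ rfl
            exact h2
          have := mul_mem h1 (inv_mem h3)
          simpa using this
        · have h1 := hall j
          rw [Function.update_of_ne hj] at h1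
          exact h1
      · intro j
        by_cases hj : j = i
        · subst hj
          simpa using huM
        · simp [Function.update_of_ne hj, one_mem]
      · simp [hi, hu, hs]
    · exact ⟨r, hr, fun j => by simp [one_mem], hi⟩
  obtain ⟨r1, h1, h2, h3⟩ := st1
  choose u huM huN hu using fun j => key (r1 i) h3 (φ (r1 j))⁻¹
  refine ⟨fun j => if j = i then r1 j else r1 j * u j, ?_, ?_, ?_⟩
  · rw [eq_top_iff, ← h1]
    apply normalClosure_le_normal
    rintro _ ⟨j, rfl⟩
    have hall : ∀ j, (if j = i then r1 j else r1 j * u j) ∈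
        normalClosure (Set.range (fun j => if j = i then r1 j else r1 j * u j)) :=
      fun j => subset_normalClosure ⟨j, rfl⟩
    have hi := hall i
    rw [if_pos rfl] at hi
    by_cases hj : j = i
    · subst hj; exact hi
    · have h4 := hall j
      rw [if_neg hj] at h4
      have h5 : u j ∈ normalClosure (Set.range (fun j => if j = i then r1 j else r1 j * u j)) := by
        refine (normalClosure_le_normal ?_ : normalClosure ({r1 i} : Set G) ≤ _) (huN j)
        rintro _ rfl
        exact hi
      have := mul_mem h4 (inv_mem h5)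
      simpa using this
  · intro j
    by_cases hj : j = i
    · simp only [if_pos hj]; exact h2 j
    · simp only [if_neg hj]
      rw [← mul_assoc]
      exact mul_mem (h2 j) (huM j)
  · intro j hj
    simp only [if_neg hj]
    rw [map_mul, hu]
    simp

end

def Good {G : Type*} [Group G] (K : Subgroup G) : Prop :=
  ∃ (S : Type) (_ : Group S) (φ : G →* S), IsSimpleGroup S ∧ commutator S = ⊤ ∧
    Function.Surjective φ ∧ φ.ker = K

lemma Good.normal {G : Type*} [Group G] {K : Subgroup G} (h : Good K) : K.Normal := by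
  obtain ⟨S, _, φ, -, -, -, rfl⟩ := h
  infer_instance

lemma Good.eq_of_le {G : Type*} [Group G] {K L : Subgroup G} (hK : Good K) (hL : Good L)
    (h : K ≤ L) : K = L := by
  have hLn := hL.normal
  obtain ⟨S, _, φ, hs, -, hφ, rfl⟩ := hK
  obtain ⟨T, _, ψ, ht, -, hψ, rfl⟩ := hL
  by_cases h1 : ψ.ker ≤ φ.ker
  · exact le_antisymm h h1
  · exfalso
    have h2 := map_top_of_not_le φ hφ ψ.ker h1
    obtain ⟨t, ht⟩ := exists_ne (1 : T)
    obtain ⟨g, rfl⟩ := hψ t
    have : φ g ∈ ψ.ker.map φ := by rw [h2]; trivial
    obtain ⟨x, hx, hx'⟩ := this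
    have h3 : x⁻¹ * g ∈ φ.ker := by
      rw [MonoidHom.mem_ker, map_mul, map_inv, hx']; simp
    have h4 := mul_mem hx (h h3)
    simp only [mul_inv_cancel_left] at h4
    exact ht h4

lemma main_ind {G : Type*} [Group G] {ι : Type*} (r : ι → G)
    (hr : normalClosure (Set.range r) = ⊤) (c : Subgroup G → ι) (A : Finset (Subgroup G))
    (hA : ∀ K ∈ A, Good K) :
    ∃ r' : ι → G, normalClosure (Set.range r') = ⊤ ∧ ∀ K ∈ A, ∀ j, j ≠ c K → r' j ∈ K := by
  classical
  induction A using Finset.induction_on with
  | empty => exact ⟨r, hr, by simp⟩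
  | insert K A hK ih =>
    obtain ⟨r1, h1, h2⟩ := ih (fun L hL => hA L (Finset.mem_insert_of_mem hL))
    have hKg := hA K (Finset.mem_insert_self _ _)
    obtain ⟨S, _, φ, hs, hc, hφ, hker⟩ := id hKg
    have hM : ∀ B : Finset (Subgroup G), B ⊆ A →
        ∃ M : Subgroup G, M.Normal ∧ M.map φ = ⊤ ∧ ∀ L ∈ B, M ≤ L := by
      intro B
      induction B using Finset.induction_on with
      | empty =>
        intro _
        refine ⟨⊤, inferInstance, ?_, by simp⟩
        rw [← MonoidHom.range_eq_map, MonoidHom.range_eq_top]; exact hφ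
      | insert L B hL ihB =>
        intro hB
        obtain ⟨M, hMn, hM1, hM2⟩ := ihB (fun x hx => hB (Finset.mem_insert_of_mem hx))
        have hLA : L ∈ A := hB (Finset.mem_insert_self _ _)
        have hLg := hA L (Finset.mem_insert_of_mem hLA)
        have hLn := hLg.normal
        have hLm : L.map φ = ⊤ := by
          apply map_top_of_not_le φ hφ
          intro hle
          rw [hker] at hle
          have := hLg.eq_of_le hKg hle
          exact hK (this ▸ hLA)
        refine ⟨M ⊓ L, inferInstance, inf_map φ hc M L hM1 hLm, ?_⟩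
        intro X hX
        rcases Finset.mem_insert.1 hX with rfl | hX
        · exact inf_le_right
        · exact inf_le_left.trans (hM2 X hX)
    obtain ⟨M, hMn, hM1, hM2⟩ := hM A le_rfl
    obtain ⟨r2, h3, h4, h5⟩ := step hc r1 h1 M φ hM1 (c K)
    refine ⟨r2, h3, ?_⟩
    intro L hL j hj
    rcases Finset.mem_insert.1 hL with rfl | hL
    · rw [← hker]; exact h5 j hj
    · have := mul_mem (h2 L hL j hj) (hM2 L hL (h4 j))
      simpa using this

open Equiv Equiv.Perm in
lemma two_gen (k : ℕ) : ∃ a b : alternatingGroup (Fin (2 * k + 5)),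
    closure ({a, b} : Set (alternatingGroup (Fin (2 * k + 5)))) = ⊤ := by
  set σ : Perm (Fin (2 * k + 5)) := finRotate (2 * k + 5) with hσ
  set τ : Perm (Fin (2 * k + 5)) := swap 0 (σ 0) with hτ
  have hσc : IsCycle σ := isCycle_finRotate_of_le (by omega)
  have hσs : σ.support = Finset.univ := support_finRotate_of_le (by omega)
  have hgen : closure ({σ, τ} : Set (Perm (Fin (2 * k + 5)))) = ⊤ :=
    closure_cycle_adjacent_swap hσc hσs 0
  have hsign : sign σ = 1 := by
    rw [hσ, sign_finRotate]
    have : 2 * k + 5 - 1 = 2 * (k + 2) := by omega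
    rw [this, pow_mul]; simp
  have hσA : σ ∈ alternatingGroup (Fin (2 * k + 5)) := mem_alternatingGroup.2 hsign
  have hτσA : τ * σ * τ⁻¹ ∈ alternatingGroup (Fin (2 * k + 5)) :=
    (inferInstance : (alternatingGroup (Fin (2 * k + 5))).Normal).conj_mem _ hσA τ
  have hττ : τ * τ = 1 := swap_mul_self _ _
  have hτi : τ⁻¹ = τ := swap_inv _ _
  set H : Subgroup (Perm (Fin (2 * k + 5))) := closure {σ, τ * σ * τ⁻¹} with hH
  have hσH : σ ∈ H := subset_closure (by simp)
  have hτH : τ * σ * τ⁻¹ ∈ H := subset_closure (by simp)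
  have hconj : ∀ x ∈ H, τ * x * τ⁻¹ ∈ H := by
    intro x hx
    induction hx using closure_induction with
    | mem y hy =>
      rcases hy with rfl | rfl
      · exact hτH
      · have : τ * (τ * σ * τ⁻¹) * τ⁻¹ = σ := by
          rw [hτi]
          calc τ * (τ * σ * τ) * τ = (τ * τ) * σ * (τ * τ) := by simp only [mul_assoc]
            _ = σ := by rw [hττ]; simp
        rw [this]; exact hσH
    | one => simp [one_mem]
    | mul y z _ _ hy hz =>
      have := mul_mem hy hz
      simpa [mul_assoc] using this
    | inv y _ hy =>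
      have := inv_mem hy
      simpa [mul_assoc] using this
  have hHn : H.Normal := by
    constructor
    intro x hx g
    have hg : g ∈ closure ({σ, τ} : Set (Perm (Fin (2 * k + 5)))) := by rw [hgen]; trivial
    have : ∀ x ∈ H, g * x * g⁻¹ ∈ H ∧ g⁻¹ * x * g ∈ H := by
      induction hg using closure_induction with
      | mem y hy =>
        intro x hx
        rcases hy with rfl | rfl
        · exact ⟨mul_mem (mul_mem hσH hx) (inv_mem hσH), mul_mem (mul_mem (inv_mem hσH) hx) hσH⟩
        · have := hconj x hx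
          refine ⟨this, ?_⟩
          rw [hτi] at this ⊢
          exact this
      | one => intro x hx; simpa using hx
      | mul y z _ _ hy hz =>
        intro x hx
        have h1 := (hy _ (hz x hx).1).1
        have h2 := (hz _ (hy x hx).2).2
        exact ⟨by simpa [mul_assoc] using h1, by simpa [mul_assoc] using h2⟩
      | inv y _ hy =>
        intro x hx
        exact ⟨by simpa using (hy x hx).2, by simpa using (hy x hx).1⟩
    exact (this x hx).1
  have hsimple : IsSimpleGroup (alternatingGroup (Fin (2 * k + 5))) :=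
    alternatingGroup.isSimpleGroup (by simp)
  refine ⟨⟨σ, hσA⟩, ⟨τ * σ * τ⁻¹, hτσA⟩, ?_⟩
  have hmap : (closure ({⟨σ, hσA⟩, ⟨τ * σ * τ⁻¹, hτσA⟩} :
      Set (alternatingGroup (Fin (2 * k + 5))))).map (alternatingGroup _).subtype = H := by
    rw [MonoidHom.map_closure, hH]
    congr 1
    simp [Set.image_insert_eq]
  have heq : closure ({⟨σ, hσA⟩, ⟨τ * σ * τ⁻¹, hτσA⟩} :
      Set (alternatingGroup (Fin (2 * k + 5)))) = H.comap (alternatingGroup _).subtype := by
    rw [← hmap, comap_map_eq_self_of_injective (alternatingGroup _).subtype_injective]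
  rw [heq]
  have hn : (H.comap (alternatingGroup (Fin (2 * k + 5))).subtype).Normal := hHn.comap _
  rcases hn.eq_bot_or_eq_top with h | h
  · exfalso
    have : (⟨σ, hσA⟩ : alternatingGroup (Fin (2 * k + 5))) ∈
        H.comap (alternatingGroup (Fin (2 * k + 5))).subtype := hσH
    rw [h, mem_bot] at this
    exact hσc.ne_one (congrArg Subtype.val this)
  · exact h

lemma card_inj {k l : ℕ} (h : Nat.card (alternatingGroup (Fin (2 * k + 5))) =
    Nat.card (alternatingGroup (Fin (2 * l + 5)))) : k = l := by
  have h1 := two_mul_nat_card_alternatingGroup (α := Fin (2 * k + 5))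
  have h2 := two_mul_nat_card_alternatingGroup (α := Fin (2 * l + 5))
  rw [Nat.card_perm] at h1 h2
  simp only [Nat.card_eq_fintype_card, Fintype.card_fin] at h1 h2 h
  have h3 : (2 * k + 5).factorial = (2 * l + 5).factorial := by rw [← h1, ← h2, h]
  have := (Nat.factorial_inj (by omega)).1 h3
  omega

theorem main (n : ℕ) (hn : 3 ≤ n) :
    ∃ r : Fin n → FreeGroup (Fin n), normalClosure (Set.range r) = ⊤ ∧
      ∀ (i : Fin n) (ι : Type) (b : FreeGroupBasis ι (FreeGroup (Fin n))) (k : ι),
        normalClosure (Set.range (Function.update r i (b k))) ≠ ⊤ := by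
  classical
  let S : Fin n → Type := fun i => alternatingGroup (Fin (2 * i.1 + 5))
  have hsimple : ∀ i, IsSimpleGroup (S i) := fun i => alternatingGroup.isSimpleGroup (by simp)
  have hcomm : ∀ i, commutator (S i) = ⊤ := fun i =>
    commutator_alternatingGroup_eq_top (by simp)
  let c : Subgroup (FreeGroup (Fin n)) → Fin n := fun K =>
    if h : ∃ i, K.index = Nat.card (S i) then h.choose else ⟨0, by omega⟩
  have hc : ∀ (i) (φ : FreeGroup (Fin n) →* S i), Function.Surjective φ → c φ.ker = i := by
    intro i φ hφ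
    have hidx : φ.ker.index = Nat.card (S i) := by
      rw [index_ker, MonoidHom.range_eq_top.2 hφ, card_top]
    have hex : ∃ i, φ.ker.index = Nat.card (S i) := ⟨i, hidx⟩
    have h1 : c φ.ker = hex.choose := dif_pos hex
    rw [h1]
    have h2 := hidx.symm.trans hex.choose_spec
    exact Fin.ext (card_inj h2).symm
  have hfin : (⋃ i : Fin n, {K : Subgroup (FreeGroup (Fin n)) |
      ∃ φ : FreeGroup (Fin n) →* S i, Function.Surjective φ ∧ φ.ker = K}).Finite := by
    apply Set.finite_iUnion
    intro i
    have : Finite (FreeGroup (Fin n) →* S i) := Finite.of_equiv _ FreeGroup.lift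
    apply (Set.finite_range (fun φ : FreeGroup (Fin n) →* S i => φ.ker)).subset
    rintro K ⟨φ, -, rfl⟩
    exact ⟨φ, rfl⟩
  obtain ⟨r, h1, h2⟩ := main_ind (G := FreeGroup (Fin n)) FreeGroup.of
    (by
      rw [eq_top_iff, ← FreeGroup.closure_range_of]
      exact closure_le_normalClosure) c hfin.toFinset
    (by
      intro K hK
      rw [Set.Finite.mem_toFinset, Set.mem_iUnion] at hK
      obtain ⟨i, φ, hφ, rfl⟩ := hK
      exact ⟨S i, inferInstance, φ, hsimple i, hcomm i, hφ, rfl⟩)
  refine ⟨r, h1, ?_⟩
  intro i ι b k htop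
  have e : Fin n ≃ ι := Equiv.ofFreeGroupEquiv b.repr
  have : Fintype ι := Fintype.ofEquiv _ e
  have hcard : Fintype.card ι = n := by rw [← Fintype.card_congr e, Fintype.card_fin]
  obtain ⟨k1, k2, hk1, hk2, hk12⟩ : ∃ k1 k2 : ι, k1 ≠ k ∧ k2 ≠ k ∧ k1 ≠ k2 := by
    have h3 : 1 < (Finset.univ.erase k).card := by
      rw [Finset.card_erase_of_mem (Finset.mem_univ _), Finset.card_univ, hcard]; omega
    obtain ⟨k1, hk1, k2, hk2, h⟩ := Finset.one_lt_card.1 h3
    exact ⟨k1, k2, (Finset.mem_erase.1 hk1).1, (Finset.mem_erase.1 hk2).1, h⟩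
  obtain ⟨x, y, hxy⟩ := two_gen i.1
  let φ : FreeGroup (Fin n) →* S i :=
    b.lift (fun t => if t = k1 then x else if t = k2 then y else 1)
  have hφb : ∀ t, φ (b t) = if t = k1 then x else if t = k2 then y else 1 := by
    intro t
    have := b.lift.symm_apply_apply (fun t => if t = k1 then x else if t = k2 then y else 1)
    exact congrFun this t
  have hφ : Function.Surjective φ := by
    rw [← MonoidHom.range_eq_top, eq_top_iff]
    refine hxy.symm.le.trans ((closure_le _).2 ?_)
    rintro _ (rfl | rfl)
    · exact ⟨b k1, by rw [hφb]; simp⟩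
    · exact ⟨b k2, by rw [hφb]; simp [hk12.symm]⟩
  have hle : normalClosure (Set.range (Function.update r i (b k))) ≤ φ.ker := by
    apply normalClosure_le_normal
    rintro _ ⟨j, rfl⟩
    by_cases hj : j = i
    · subst hj
      rw [Function.update_self]
      show φ (b k) = 1
      rw [hφb]; simp [hk1.symm, hk2.symm]
    · rw [Function.update_of_ne hj]
      apply h2 φ.ker
      · rw [Set.Finite.mem_toFinset, Set.mem_iUnion]
        exact ⟨i, φ, hφ, rfl⟩
      · rw [hc i φ hφ]; exact hj
  rw [htop] at hle
  have := hsimple i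
  obtain ⟨s, hs⟩ := exists_ne (1 : S i)
  obtain ⟨g, rfl⟩ := hφ s
  exact hs (hle (mem_top g))

end Pool.Agent.H.MP_4f7194_al
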